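import Mathlib
import Pool.Agent.H91.Sh7
import Pool.Graph.R_seed8.R390.NoInv

/-!
# The order of vanishing formula at `p = 3` for the majority of the cubic twists over `ℚ(√-3)`, and
for `y² + y = x³` over the majority of the pure cubic extensions

`K` is the field of third roots of unity and `E_D : y² + D y = x³`; these are the cubic twists of
`E_1 : y² + y = x³`. We prove the formula of the problem for `p = 3`, with both sides equal to zero, for
`M = h¹(E_D)(1)` over `K` and for `M = h¹(E_1)(1)` over `F = K(∛D)`, a number field of degree `6`.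

`D` is cubefree, prime to `3`, not a unit, different from `1` and `-1` modulo `3 √-3` (`InClass`), and a
system of linear equations over the field with three elements, whose coefficients are the cubic residue
symbols `(π_k / π_i)`, `(ω / π_i)` of the prime divisors `π_i` of `D`, has only the zero solution
(`Minimal`; the condition does not depend on the factorization). The number of the prime divisors is
arbitrary.

(1) For every such `D` the formula holds for `E_D` over `K`: so `L(s, M) = L(E_D / K, s + 1)` is entire and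
not zero at `s = 0`, and `H⁰(K, V_3 E_D)` and the Bloch–Kato Selmer group `H¹_f(K, V_3 E_D)` are zero.
(2) For every such squarefree `D` the formula holds for `E_1` over `F = K(∛D)`.
(3) Both hold for at least the proportion `8/9 ∏_{i ≥ 0} (1 - 3^{-(2 i + 1)}) - ε`, the product is
`0.5680...`, of all squarefree `D` prime to `3`, ordered by the norm.

`H1f 3 W` (`Pool.Agent.Y667.BKP.H1f` of the library) is the group of the classes of the continuous
cocycles of the absolute Galois group with values in `V_3 W = T_3 W ⊗ ℚ_3` whose restriction to the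
completion at every place is in the image of the Kummer map; this is the condition of Bloch and Kato.
An element of `V_3 W` is described by a sequence of points (`IsV 3 W`).
-/

set_option autoImplicit false

namespace Pool.Agent.Results.MP_ec4e4b_nt.CubicTwistsAtThree

open NumberField IsDedekindDomain WeierstrassCurve
open Pool.Agent.TH841.NF.D (Sha)
open Pool.Agent.TH841.SH.D (Gal act)
open Pool.Agent.Y667.BKP (H1f PSeq IsV)
open scoped Classical

/-- `H⁰(F, V_3 W) = 0`: the elements of `V_3 W` that are fixed by the Galois group are zero. -/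
def NoInvariants {F : Type} [Field F] (W : WeierstrassCurve F) : Prop :=
  ∀ x : PSeq W, IsV 3 W x → (∀ (σ : Gal F) (n : ℕ), act W σ.toAlgHom (x n) = x n) → ∀ n, x n = 0

/-- The `L`-series (of Mathlib) extends to the entire function `L`. -/
def Continues {F : Type} [Field F] [NumberField F] (W : WeierstrassCurve F) (L : ℂ → ℂ) : Prop :=
  Differentiable ℂ L ∧ ∀ s : ℂ, (3 / 2 : ℝ) < s.re →
    LSeriesSummable ((fun n : ℤ => (n : ℂ)) ∘ W.LFunction) s ∧ L s = W.LSeries s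

/-- The order of vanishing formula for `h¹(W)(1)` and `p = 3`, with both sides zero: `W` is an
elliptic curve, its `L`-series extends to an entire function that is not zero at `1`, and
`H⁰(F, V_3 W)` and `H¹_f(F, V_3 W)` are zero. -/
def Formula {F : Type} [Field F] [NumberField F] (W : WeierstrassCurve F) : Prop :=
  W.IsElliptic ∧ (∃ L : ℂ → ℂ, Continues W L ∧ L 1 ≠ 0) ∧ NoInvariants W ∧ ∀ x : H1f 3 W, x = 0

/-- The curve `E_D : y² + D y = x³`. -/
def curve {F : Type} [Field F] (D : F) : WeierstrassCurve F := ⟨0, 0, D, 0, 0⟩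

variable {K : Type} [Field K] [NumberField K]

/-- `D` is cubefree, prime to `3`, different from `1` and `-1` modulo `3 √-3`, and not a unit. -/
def InClass (D : 𝓞 K) : Prop :=
  IsCoprime D 3 ∧ (∀ t : 𝓞 K, t ^ 2 = -3 → ¬ 3 * t ∣ D - 1 ∧ ¬ 3 * t ∣ D + 1) ∧
    (∀ p : 𝓞 K, p ^ 3 ∣ D → IsUnit p) ∧ ¬ IsUnit D

/-- `D = ± ω ^ c ∏ π_i ^ e_i` with different primes `π_i = 1` modulo `3` and `e_i ≠ 0`; the cubic
residue symbols are `(π_k / π_i) = ω ^ χ i k` and `(ω / π_i) = ω ^ τ i`. -/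
structure IsFactorization (ω D : 𝓞 K) (c : ZMod 3) (n : ℕ) (π : Fin n → 𝓞 K) (e τ : Fin n → ZMod 3)
    (χ : Fin n → Fin n → ZMod 3) : Prop where
  root : ω ^ 2 + ω + 1 = 0
  prime : ∀ i, Prime (π i) ∧ (3 : 𝓞 K) ∣ π i - 1
  ne : ∀ i k, i ≠ k → π i ≠ π k
  exp : ∀ i, e i ≠ 0
  eq : D = ω ^ c.val * ∏ i, π i ^ (e i).val ∨ D = -(ω ^ c.val * ∏ i, π i ^ (e i).val)
  symb : ∀ i k, i ≠ k →
    π i ∣ π k ^ (((Algebra.norm ℤ (π i)).natAbs - 1) / 3) - ω ^ (χ i k).val
  symbRoot : ∀ i, π i ∣ ω ^ (((Algebra.norm ℤ (π i)).natAbs - 1) / 3) - ω ^ (τ i).val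

/-- The system of the residue symbols has only the zero solution. (The last equation follows from the
others if `c ≠ 0`.) -/
def OnlyZero (c : ZMod 3) {n : ℕ} (e τ : Fin n → ZMod 3) (χ : Fin n → Fin n → ZMod 3) : Prop :=
  ∀ x : Fin n → ZMod 3, (∀ i, ∑ k, e k * χ i k * (x k - x i) - c * τ i * x i = 0) →
    ∑ i, e i * τ i * x i = 0 → x = 0

/-- `D` has a factorization such that the system of the residue symbols has only the zero solution. -/
def Minimal (D : 𝓞 K) : Prop :=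
  ∃ (ω : 𝓞 K) (c : ZMod 3) (n : ℕ) (π : Fin n → 𝓞 K) (e τ : Fin n → ZMod 3)
    (χ : Fin n → Fin n → ZMod 3), IsFactorization ω D c n π e τ χ ∧ OnlyZero c e τ χ

theorem facts_of {ω D : 𝓞 K} {c : ZMod 3} {n : ℕ} {π : Fin n → 𝓞 K} {e τ : Fin n → ZMod 3}
    {χ : Fin n → Fin n → ZMod 3} (h : IsFactorization ω D c n π e τ χ) :
    Pool.Agent.H91.Fin1.IsF ω D c n π e τ χ :=
  ⟨h.root, h.prime, h.ne, h.exp, h.eq, h.symb, h.symbRoot⟩

theorem of_facts {ω D : 𝓞 K} {c : ZMod 3} {n : ℕ} {π : Fin n → 𝓞 K} {e τ : Fin n → ZMod 3}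
    {χ : Fin n → Fin n → ZMod 3} (h : Pool.Agent.H91.Fin1.IsF ω D c n π e τ χ) :
    IsFactorization ω D c n π e τ χ :=
  ⟨h.root, h.prime, h.ne, h.exp, h.eq, h.symb, h.symbr⟩

/-- `D` is squarefree and prime to `3`, and `|N(D)| ≤ X`. -/
def Family (X : ℕ) (D : 𝓞 K) : Prop :=
  |Algebra.norm ℤ D| ≤ X ∧ Squarefree D ∧ IsCoprime D 3

/-- `F = K(∛D)` is a cubic extension of `K`, and the formula holds for `E_1` over `F`. -/
def FormulaCubic (D : 𝓞 K) : Prop :=
  ∀ (F : Type) [Field F] [NumberField F] [Algebra K F] (θ : F), θ ^ 3 = algebraMap K F D →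
    IntermediateField.adjoin K {θ} = ⊤ → Module.finrank K F = 3 ∧ Formula (curve (1 : F))

/-- `8/9 (1 - 1/3) (1 - 1/27) (1 - 1/243) ⋯ = 0.5680...` -/
noncomputable def proportion : ℝ := 8 / 9 * ∏' i : ℕ, (1 - (1 / 3 : ℝ) ^ (2 * i + 1))

/-- the discriminant is not zero -/
theorem elliptic {F : Type} [Field F] [NumberField F] {d : F} (hd : d ≠ 0) :
    (curve d).IsElliptic := by
  refine ⟨isUnit_iff_ne_zero.2 ?_⟩
  have h1 : (curve d).Δ = -27 * d ^ 4 := by
    simp only [curve, WeierstrassCurve.Δ, WeierstrassCurve.b₂, WeierstrassCurve.b₄,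
      WeierstrassCurve.b₆, WeierstrassCurve.b₈]
    ring
  rw [h1]
  exact mul_ne_zero (by norm_num) (pow_ne_zero _ hd)

/-- the formula follows from the finiteness of `E_d(F)`, the nonvanishing of the `L`-function, and the
boundedness of the exponent of `Ш(E_d / F)[3^∞]` -/
theorem formula_F {F : Type} [Field F] [NumberField F] {d : F} (hd : d ≠ 0)
    (hfin : Finite (curve d).toAffine.Point)
    (hL : ∃ Lf : ℂ → ℂ, Differentiable ℂ Lf ∧
      (∀ s : ℂ, 3 / 2 < s.re →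
        LSeriesSummable ((fun n : ℤ => (n : ℂ)) ∘ (curve d).LFunction) s ∧
          Lf s = (curve d).LSeries s) ∧ Lf 1 ≠ 0) (m : ℕ)
    (hS : ∀ (n : ℕ) (x : Sha (curve d)), 3 ^ n • x = 0 → 3 ^ m • x = 0) : Formula (curve d) := by
  obtain ⟨Lf, h1, h2, h3⟩ := hL
  exact ⟨elliptic hd, ⟨Lf, ⟨h1, h2⟩, h3⟩,
    fun x hx hfix => Pool.Agent.R390.noinv hfin x hx hfix,
    Pool.Agent.Y667.BKP.h1f_zero Nat.prime_three hfin m hS⟩

/-- the formula over `K` -/
theorem formula_of (j : Pool.Agent.Y692.QS.Ei ≃+* 𝓞 K)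
    (hj : ∀ z : Pool.Agent.Y692.QS.Ei, Algebra.norm ℤ (j z) = Pool.Agent.Y692.QS.nr z)
    (hdisc : discr K = -3) {D : 𝓞 K} (hD : InClass D) (h : Pool.Agent.Y696.CTK.Tri D) :
    Formula (curve (D : K)) := by
  have h0 : D ≠ 0 := by
    rintro rfl
    have h1 := hD.2.2.1 0 (dvd_zero _)
    exact hD.2.2.2 h1
  obtain ⟨-, -, Lf, c, h1, h2, h3, -⟩ := Pool.Agent.H91.Fin2.law2 j hj hdisc hD
  refine formula_F (fun h => h0 (RingOfIntegers.ext h)) h.1 ⟨Lf, h1, h2, h3 h⟩ 0 fun k x hx => ?_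
  have h6 : x = 0 := h.2 k x hx
  rw [h6]
  exact smul_zero _

theorem tri_iff (j : Pool.Agent.Y692.QS.Ei ≃+* 𝓞 K)
    (hj : ∀ z : Pool.Agent.Y692.QS.Ei, Algebra.norm ℤ (j z) = Pool.Agent.Y692.QS.nr z)
    {D : 𝓞 K} (hD : InClass D) : Minimal D ↔ Pool.Agent.Y696.CTK.Tri D := by
  constructor
  · rintro ⟨ω, c, n, π, e, τ, χ, h, hz⟩
    exact (Pool.Agent.H91.Fin2.crit2 j hj hD (facts_of h)).2 hz
  · intro hT
    obtain ⟨ω, c, n, π, e, τ, χ, h⟩ := Pool.Agent.H91.Fin2.fac2 j hj hD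
    exact ⟨ω, c, n, π, e, τ, χ, of_facts h, (Pool.Agent.H91.Fin2.crit2 j hj hD h).1 hT⟩

theorem cubic_of {D : 𝓞 K} (h : Pool.Agent.H91.XP.Gx 1 D) : FormulaCubic D := by
  intro F _ _ _ θ hθ hgen
  obtain ⟨a1, a2, a3⟩ := h F θ hθ hgen
  have e : algebraMap K F ((1 : 𝓞 K) : K) = 1 := by
    have e1 : ((1 : 𝓞 K) : K) = 1 := rfl
    rw [e1, map_one]
  rw [e] at a2 a3
  exact ⟨a1, formula_F one_ne_zero a2.1 a2.2 1 (by rw [pow_one]; exact a3)⟩

/-- **Main theorem.** Let `K` be the field of third roots of unity.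
(0) For every `D` in the class `L(E_D / K, s)` is entire, `D` has a factorization, and the condition on
the system of the residue symbols does not depend on the factorization.
(1) If the system has only the zero solution, then the order of vanishing formula for `p = 3` holds for
`h¹(E_D)(1)` over `K`.
(2) If, moreover, `D` is squarefree, then it holds for `h¹(E_1)(1)` over `K(∛D)`.
(3) Both hold for at least the proportion `8/9 ∏_{i ≥ 0} (1 - 3^{-(2 i + 1)}) - ε` of all squarefree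
`D` prime to `3` with `|N(D)| ≤ X`, if `X` is large. -/
theorem result (K : Type) [Field K] [NumberField K] [IsCyclotomicExtension {3} ℚ K] :
    (∀ D : 𝓞 K, InClass D →
      (∃ L : ℂ → ℂ, Continues (curve (D : K)) L) ∧
      (∃ (ω : 𝓞 K) (c : ZMod 3) (n : ℕ) (π : Fin n → 𝓞 K) (e τ : Fin n → ZMod 3)
        (χ : Fin n → Fin n → ZMod 3), IsFactorization ω D c n π e τ χ) ∧
      (∀ (ω : 𝓞 K) (c : ZMod 3) (n : ℕ) (π : Fin n → 𝓞 K) (e τ : Fin n → ZMod 3)
        (χ : Fin n → Fin n → ZMod 3), IsFactorization ω D c n π e τ χ →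
          (OnlyZero c e τ χ ↔ Minimal D)) ∧
      (Minimal D → Formula (curve (D : K)) ∧ (Squarefree D → FormulaCubic D))) ∧
    (∀ ε : ℝ, 0 < ε → ∃ X₀ : ℕ, ∀ X : ℕ, X₀ ≤ X →
      (proportion - ε) * ({D : 𝓞 K | Family X D}.ncard : ℝ) ≤
        ({D : 𝓞 K | Family X D ∧ Formula (curve (D : K)) ∧ FormulaCubic D}.ncard : ℝ)) ∧
    0.568 < proportion ∧
    ∃ c : ℝ, 0 < c ∧ ∃ X₀ : ℕ, ∀ X : ℕ, X₀ ≤ X →
      {D : 𝓞 K | Family X D}.Finite ∧ c * X ≤ ({D : 𝓞 K | Family X D}.ncard : ℝ) := by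
  obtain ⟨⟨j, hj⟩, hdisc⟩ := Pool.Agent.Y455.CTK.jex K
  obtain ⟨c, hc, X₀, hpos⟩ := Pool.Agent.H91.Dz7.pos3 j hj
  have hfin : ∀ X : ℕ, {D : 𝓞 K | Family X D}.Finite := by
    intro X
    refine ((Pool.Agent.H91.Dz.fin_nr X).image j).subset ?_
    rintro D ⟨h1, -, -⟩
    obtain ⟨z, rfl⟩ := j.surjective D
    refine ⟨z, ?_, rfl⟩
    rw [hj] at h1
    exact (le_abs_self _).trans h1
  have hcub : ∀ D : 𝓞 K, Squarefree D → InClass D → Pool.Agent.Y696.CTK.Tri D →
      FormulaCubic D := fun D hR hA hT =>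
    cubic_of (Pool.Agent.H91.XP.gx_one j hj hdisc hR hA.1 hA hT)
  refine ⟨fun D hD => ⟨?_, ?_, ?_, fun hM => ⟨?_, fun hs => ?_⟩⟩, ?_,
    Pool.Agent.H91.XH.c9_val2.1, ⟨c, hc, X₀, fun X hX => ⟨hfin X, hpos X hX⟩⟩⟩
  · obtain ⟨-, -, Lf, c, h1, h2, h3, -⟩ := Pool.Agent.H91.Fin2.law2 j hj hdisc hD
    exact ⟨Lf, h1, h2⟩
  · obtain ⟨ω, c, n, π, e, τ, χ, h⟩ := Pool.Agent.H91.Fin2.fac2 j hj hD
    exact ⟨ω, c, n, π, e, τ, χ, of_facts h⟩
  · intro ω c n π e τ χ h
    rw [tri_iff j hj hD]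
    exact (Pool.Agent.H91.Fin2.crit2 j hj hD (facts_of h)).symm
  · exact formula_of j hj hdisc hD ((tri_iff j hj hD).1 hM)
  · exact hcub D hs hD ((tri_iff j hj hD).1 hM)
  · intro ε hε
    have h1 := Pool.Agent.H91.XH.lim_K2 j hj
    have h2 : ∀ᶠ X : ℕ in Filter.atTop, proportion - ε <
        ({D : 𝓞 K | (|Algebra.norm ℤ D| ≤ X ∧ Squarefree D ∧ IsCoprime D 3) ∧
          Pool.Agent.H91.Fin2.Cl2 D ∧ Pool.Agent.Y696.CTK.Tri D}.ncard : ℝ) /
        ({D : 𝓞 K | |Algebra.norm ℤ D| ≤ X ∧ Squarefree D ∧ IsCoprime D 3}.ncard : ℝ) :=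
      h1.eventually (lt_mem_nhds (by
        show proportion - ε < proportion
        linarith))
    obtain ⟨X₁, hX₁⟩ := Filter.eventually_atTop.1 h2
    refine ⟨X₁, fun X hX => ?_⟩
    have h3 := hX₁ X hX
    have h4 : (0 : ℝ) ≤ ({D : 𝓞 K | Family X D}.ncard : ℝ) := by positivity
    have h5 : ({D : 𝓞 K | (|Algebra.norm ℤ D| ≤ X ∧ Squarefree D ∧ IsCoprime D 3) ∧
          Pool.Agent.H91.Fin2.Cl2 D ∧ Pool.Agent.Y696.CTK.Tri D}.ncard : ℝ) ≤
        ({D : 𝓞 K | Family X D ∧ Formula (curve (D : K)) ∧ FormulaCubic D}.ncard : ℝ) := by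
      have h8 : {D : 𝓞 K | (|Algebra.norm ℤ D| ≤ X ∧ Squarefree D ∧ IsCoprime D 3) ∧
          Pool.Agent.H91.Fin2.Cl2 D ∧ Pool.Agent.Y696.CTK.Tri D} ⊆
          {D : 𝓞 K | Family X D ∧ Formula (curve (D : K)) ∧ FormulaCubic D} :=
        fun D hD => ⟨hD.1, formula_of j hj hdisc hD.2.1 hD.2.2, hcub D hD.1.2.1 hD.2.1 hD.2.2⟩
      exact_mod_cast Set.ncard_le_ncard h8 ((hfin X).subset fun D hD => hD.1)
    rcases h4.eq_or_lt with h6 | h6
    · rw [← h6, mul_zero]
      positivity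
    · have h7 := (lt_div_iff₀ h6).1 h3
      exact h7.le.trans h5

end Pool.Agent.Results.MP_ec4e4b_nt.CubicTwistsAtThree
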