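import Pool.Agent.H71.AR.BK

/-!
# The order of vanishing formula of Bloch and Kato and the middle cohomology of moduli spaces of line
arrangements

A moduli space of line arrangements parametrises the arrangements which consist of the four lines
`X = 0`, `Y = 0`, `Z = 0`, `X + Y + Z = 0` and of `a` lines `X + x_i Y + y_i Z = 0` and `b` lines
`Y + z_j Z = 0` in the projective plane such that exactly the triples of lines in a given set `S` are
not concurrent. `ArrAlg k N` says that `N` is the algebra of functions on such a moduli space over `k`
(it represents the functor of these arrangements) and that the lines are pairwise distinct.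

Every pure motive of weight `-1` is polarised. Only motives over `ℚ` are treated.
-/

set_option autoImplicit false

open CategoryTheory CategoryTheory.Limits AlgebraicGeometry Pool.Agent.Y116.UV
  Pool.Agent.Y101.Th Pool.Agent.Y691.TU Pool.Agent.H71.AR

namespace Pool.Agent.Results.MP_ec4e4b_nt.LineArrangements

universe v u

/-- **The order of vanishing formula and moduli spaces of line arrangements.** Let `C` be a semisimple
category of pure motives over `ℚ`, generated by the cohomology of the smooth projective schemes, `D`
the graded pieces `gr^W_w H^j_c(X)` as objects of `C`, and `T` the arithmetic data of these motives,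
with their known properties. The following are equivalent:

* the formula `ord_{s = 0} L(s, M) = dim H^1_f(ℚ, M_p) - dim H^0(ℚ, M_p)` (including the rationality of
  the local factors and the meromorphic continuation) is true for all motives `M` of weight `-1`;
* it is true for all direct summands of weight `-1` of Tate twists of the pure part `gr^W_m H^m_c` of
  the middle cohomology of the smooth integral moduli spaces of line arrangements of odd
  dimension `m`.

For each `n` it is true for the direct summands of weight `-1` of twists of the cohomology of the
smooth projective schemes of dimension at most `n` if and only if it is true for those of the pure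
part of the middle cohomology of the smooth integral moduli spaces of line arrangements of odd
dimension `m ≤ n`. -/
theorem result {C : Type u} [Category.{v} C] [Abelian C] {D : Graded ℚ C} [D.L.IsEquivalence]
    {T : Arith C} (hC : Semisimple C) (hD : IsCoh D) (hG : ∀ M : C, Gen D M)
    (hT : IsArith T D) :
    ((∀ M : C, OrderFormula T M) ↔
      ∀ (N : Type) [CommRing N] [IsDomain N] [Algebra ℚ N] [Algebra.Smooth ℚ N], ArrAlg ℚ N →
        ∀ m : ℕ, Odd m → ringKrullDim N = m → Every D.L (OrderFormula T) (D.H (aff ℚ N) m m)) ∧
    ∀ n : ℕ,
      (∀ X : Sch ℚ, SmProj X → topologicalKrullDim X.left ≤ n → ∀ i,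
          Every D.L (OrderFormula T) (D.H X i i)) ↔
        ∀ (N : Type) [CommRing N] [IsDomain N] [Algebra ℚ N] [Algebra.Smooth ℚ N], ArrAlg ℚ N →
          ∀ m : ℕ, Odd m → m ≤ n → ringKrullDim N = m →
            Every D.L (OrderFormula T) (D.H (aff ℚ N) m m) :=
  ⟨oddOnly_all isFrac_rat hC hD hG hT.weight (additive_bk hT) (oddOnly_bk hT),
    fun n => oddOnly_dim isFrac_rat hC hD hT.weight (additive_bk hT) (oddOnly_bk hT) n⟩

end Pool.Agent.Results.MP_ec4e4b_nt.LineArrangements
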