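import Pool.Agent.H92P.Up
import Pool.Agent.H92P.BiaVP
import Pool.Graph.R_seed8.R390.NoInv

/-!
# The order of vanishing formula over all the admissible extensions of odd prime power degree: unit values

`K` is an imaginary quadratic field of class number one, `p` an odd prime, and `E_i : y² = x³ + a_i x + b_i`,
`i = 1, …, m`, are elliptic curves over `K`, not necessarily `ℚ`-curves or base changes from `ℚ`, with Bianchi newforms
`f_i` of weight two: `L(E_i/K, s) = L(f_i, s)`.  Suppose that `L(E_i/K, 1) ≠ 0` and that the `p`-Selmer groups of the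
`E_i/K` are trivial.  A place `v ∤ 2p(4a_i³ + 27b_i²)` of `K` is admissible if `N(v) ≡ 1 mod p` and `p ∤ #E_i(𝓞/v)`.

Theorem.  (1) For all the finite Galois extensions `F/K` of `p`-power degree, abelian or not, which are ramified only at
admissible places and in which the places `v ∣ 2p(4a_i³ + 27b_i²)` split completely, `E_i(F)` is finite of order prime to
`p`, `Ш(E_i/F)[p^∞] = 0`, and `H⁰(F, V_p E_i)` and the Selmer group of Bloch and Kato `H¹_f(F, V_p E_i)` are zero.  So the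
order of vanishing formula for `h¹(E_i)(1)` over `F` and `p` is the statement `L(E_i/F, 1) ≠ 0`.
(2) If the central values of the `f_i` are prime to `p` (`Φ_i(0) ∉ p Λ_i`, where `Λ_i` is the group generated by
the values of the primitive `Φ_i` of the harmonic differential of `f_i` at the cusps) and the `Λ_i` are cyclic (as they are
by multiplicity one and the theorem of Manin, Drinfeld and Kurčanov), then `L(E_i ⊗ χ, 1) ≠ 0` for ALL the characters `χ` of
`p`-power order whose conductor is a product of different admissible places, and the formula holds over ALL the class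
fields `F` of finite groups of them in which the places `v ∣ 2p(4a_i³ + 27b_i²)` split completely.

The library has, over imaginary quadratic `K` and for curves which need not come from `ℚ`, extensions of `2`-power
degree only (`BianchiTowers`, `BianchiTwoExtensions`); over `ℚ` it has extensions of odd prime power degree
(`PPartLifting`, `SelmerTowers` and others).  For arbitrary nonzero central values and finite Selmer groups see
`BlochKatoPropagation`.

The proof.  Part (1) is a descent, a version over number fields of that of helper21 over `ℚ` (`PPartLifting`).  As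
`E(K)[p] = 0` and `Gal(F/K)` is a `p`-group, `E(F)[p] = 0`; and if `E(F)/p` or `Ш(E/F)[p]` were not zero, there would be a
nonzero class fixed by `Gal(F/K)`, and it would be the restriction of a class over `K`.  This is locally trivial: this is
clear at the places which split completely in `F`; and at the other places `v`, which are prime to `p` and of good
reduction, it follows from Lang's theorem and Hensel's lemma, if `v` is not ramified in `F` or `E(𝓞/v)` has no elements
of order `p` (`H92P.loc_good`).  So it is in `Ш(E/K)[p] = 0`.  The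
analytic side is as follows.  Up to a nonzero factor, `L(E ⊗ χ, 1)` is the sum `∑ conj χ(x) Φ(x/m)` over the `x` modulo
the conductor `m`; as `χ(x) ≡ 1` modulo the maximal ideals above `p`, it is congruent to that for `χ = 1`, which is `Φ(0)`
times a product of units.

`H1f p W` (`Pool.Agent.Y667.BKP.H1f`, by helper667) is the group of the classes of the continuous cocycles of the
absolute Galois group with values in `V_p W = T_p W ⊗ ℚ_p` whose restriction to the completion at every place is in the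
image of the Kummer map; this is the condition of Bloch and Kato.  An element of `V_p W` is described by a
sequence of points (`IsV p W`).
-/

set_option autoImplicit false

open NumberField IsDedekindDomain Matrix Filter Topology
open Pool.Agent.TH841.SH.D (Gal act)
open Pool.Agent.Y667.BKP (H1f PSeq IsV)

namespace Pool.Agent.Results.MP_ec4e4b_nt.SelmerZeroExtensions

/-- `K` is an imaginary quadratic field, `σ` is one of its two embeddings in `ℂ`, and `δ` generates the
different of `K`: an `x ∈ K` is in `𝓞` if and only if `Tr(x y / δ) ∈ ℤ` for all `y ∈ 𝓞`. -/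
structure IsFieldData (K : Type) [Field K] [NumberField K] (σ : K →+* ℂ) (δ : K) : Prop where
  quadratic : Module.finrank ℚ K = 2
  imaginary : ∃ x, (starRingEnd ℂ) (σ x) ≠ σ x
  different : ∀ x : K, (∃ a : 𝓞 K, (a : K) = x) ↔
    ∀ y : 𝓞 K, ∃ m : ℤ, Algebra.trace ℚ K (x * y / δ) = m

/-- `h(y) = ∫_0^∞ exp(-1/v - y v) dv = 2 y^(-1/2) K₁(2 √y)`, with the Bessel function `K₁`. -/
noncomputable def bessel (y : ℝ) : ℝ := ∫ v in Set.Ioi (0 : ℝ), Real.exp (-(1 / v) - y * v)

/-- The additive character `e(z) = exp(2πi (z/δ + conj (z/δ)))` of `ℂ`, trivial on `𝓞`. -/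
noncomputable def addChar (δ z : ℂ) : ℂ :=
  Complex.exp (2 * Real.pi * Complex.I * (z / δ + (starRingEnd ℂ) (z / δ)))

/-- The denominator `|c z + d|² + |c|² t²` of the action of the matrix `(a, b; c, d)` on the hyperbolic
space `{(z, t) : z ∈ ℂ, t > 0}`. -/
noncomputable def den (c d z : ℂ) (t : ℝ) : ℝ := ‖c * z + d‖ ^ 2 + ‖c‖ ^ 2 * t ^ 2

/-- The first coordinate `((a z + b) conj (c z + d) + a conj(c) t²) / (|c z + d|² + |c|² t²)` of the image
of `(z, t)` under the matrix `(a, b; c, d)`. -/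
noncomputable def actZ (a b c d z : ℂ) (t : ℝ) : ℂ :=
  ((a * z + b) * (starRingEnd ℂ) (c * z + d) + a * (starRingEnd ℂ) c * (t : ℂ) ^ 2) /
    (den c d z t : ℂ)

/-- The second coordinate, for a matrix of determinant one; in general it is `|ad - bc|` times this. -/
noncomputable def actT (c d z : ℂ) (t : ℝ) : ℝ := t / den c d z t

/-- `V_j(t, q) = α^j + β^j` for `α + β = t`, `α β = q`. -/
noncomputable def lucas (t q : ℂ) : ℕ → ℂ
  | 0 => 2
  | 1 => t
  | (j + 2) => t * lucas t q (j + 1) - q * lucas t q j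

section field
variable {K : Type} [Field K] [NumberField K]

/-- The function `Φ(z, t) = ∑_{x ∈ 𝓞} c((x)) t² h(N(x) (2πt/|δ|)²) e(x z)
  = (|δ|/π) ∑_{x ≠ 0} (c((x))/|x|) t K₁(4π|x|t/|δ|) e(x z)` on the hyperbolic space, with the coefficients `c`.
Up to a constant factor it is the primitive, zero at the cusp `∞`, of the harmonic differential of the
form of weight two with the Fourier coefficients `c`: its derivative by `t` is
`-4 ∑_{x ≠ 0} c((x)) t K₀(4π|x|t/|δ|) e(x z)`. -/
noncomputable def primitive (σ : K →+* ℂ) (δ : K) (c : Ideal (𝓞 K) → ℂ) (z : ℂ) (t : ℝ) : ℂ :=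
  ∑' x : 𝓞 K, c (Ideal.span {x}) * ((t ^ 2 * bessel (Ideal.absNorm (Ideal.span {x}) *
    (2 * Real.pi * t / ‖σ δ‖) ^ 2) : ℝ) : ℂ) * addChar (σ δ) (σ x * z)

/-- The numbers `c(I)` are the Hecke eigenvalues of a Bianchi newform `f` of weight two, level `(n)` and
trivial character over `K`: they satisfy `c(𝓞) = 1`, the (trivial) bound `c(I) = O(N(I))` and the Hecke
relations `c(v I) = c(v) c(I)` for `v ∤ I`, `c(v² I) = c(v) c(v I) - N(v) c(I)` for the primes `v ∤ n`, and
`c(v I) = c(v) c(I)` for `v ∣ n`; the differential `dΦ` of the function `Φ` with the coefficients `c` is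
invariant under `Γ₀(n)`, that is, `Φ(γ P) - Φ(P)` is a constant for every `γ ∈ Γ₀(n)`; and `dΦ` is an
eigenform, with the eigenvalue `±1`, of the Fricke involution `W = (0, -1; n, 0)`. -/
structure IsNewform (σ : K →+* ℂ) (δ : K) (n : 𝓞 K) (c : Ideal (𝓞 K) → ℂ) : Prop where
  level : n ≠ 0
  zero : c ⊥ = 0
  one : c ⊤ = 1
  bound : ∃ C : ℝ, ∀ I, ‖c I‖ ≤ C * Ideal.absNorm I
  good : ∀ v : HeightOneSpectrum (𝓞 K), n ∉ v.asIdeal → ∀ I,
    (¬ v.asIdeal ∣ I → c (v.asIdeal * I) = c v.asIdeal * c I) ∧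
    c (v.asIdeal * (v.asIdeal * I)) = c v.asIdeal * c (v.asIdeal * I) -
      Ideal.absNorm v.asIdeal * c I
  bad : ∀ v : HeightOneSpectrum (𝓞 K), n ∈ v.asIdeal → ∀ I,
    c (v.asIdeal * I) = c v.asIdeal * c I
  invariant : ∃ κ : SpecialLinearGroup (Fin 2) (𝓞 K) → ℂ,
    ∀ γ : SpecialLinearGroup (Fin 2) (𝓞 K), n ∣ γ.1 1 0 → ∀ (z : ℂ) (t : ℝ), 0 < t →
      primitive σ δ c (actZ (σ (γ.1 0 0)) (σ (γ.1 0 1)) (σ (γ.1 1 0)) (σ (γ.1 1 1)) z t)
        (actT (σ (γ.1 1 0)) (σ (γ.1 1 1)) z t) = primitive σ δ c z t + κ γ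
  fricke : ∃ w κ : ℂ, w * w = 1 ∧ ∀ (z : ℂ) (t : ℝ), 0 < t →
    primitive σ δ c (actZ 0 (-1) (σ n) 0 z t) (‖σ n‖ * actT (σ n) 0 z t) =
      -w * primitive σ δ c z t + κ

/-- The number of the affine points of `y² = x³ + a x + b` over the residue field of `v`. -/
noncomputable def points (a b : 𝓞 K) (v : HeightOneSpectrum (𝓞 K)) : ℕ :=
  Nat.card {x : (𝓞 K ⧸ v.asIdeal) × (𝓞 K ⧸ v.asIdeal) //
    x.2 ^ 2 = x.1 ^ 3 + (Ideal.Quotient.mk v.asIdeal a) * x.1 + (Ideal.Quotient.mk v.asIdeal b)}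

/-- `f` is the newform of `E : y² = x³ + a x + b`: for `v ∤ 2(4a³ + 27b²)` (so that `E` has good reduction at `v`)
the level is prime to `v` and `c(v) = N(v) + 1 - #E(𝓞/v)`. -/
def IsNewformOf (a b n : 𝓞 K) (c : Ideal (𝓞 K) → ℂ) : Prop :=
  ∀ v : HeightOneSpectrum (𝓞 K), 2 * (4 * a ^ 3 + 27 * b ^ 2) ∉ v.asIdeal →
    n ∉ v.asIdeal ∧ c v.asIdeal = (Ideal.absNorm v.asIdeal : ℂ) - points a b v

/-- The curve `E : y² = x³ + a x + b` over `F`. -/
def curve (F : Type) [Field F] [NumberField F] [Algebra K F] (a b : 𝓞 K) : WeierstrassCurve F :=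
  ⟨0, 0, 0, algebraMap K F a, algebraMap K F b⟩

/-- The `p`-Selmer group of `E/K` is trivial, that is, `E(K)` is finite of order prime to `p` and `Ш(E/K)[p] = 0`. -/
def TrivialSelmer (p : ℕ) (a b : 𝓞 K) : Prop :=
  Finite (curve K a b).toAffine.Point ∧ ¬ p ∣ Nat.card (curve K a b).toAffine.Point ∧
    ∀ s : Pool.Agent.TH841.NF.D.Sha (curve K a b), p • s = 0 → s = 0

/-- The admissible places: `v ∤ 2p(4a³ + 27b²)`, `N(v) ≡ 1 mod p`, and `#E(𝓞/v)` (with the point at infinity) is prime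
to `p`. -/
def Admissible (p : ℕ) (a b : 𝓞 K) (v : HeightOneSpectrum (𝓞 K)) : Prop :=
  2 * p * (4 * a ^ 3 + 27 * b ^ 2) ∉ v.asIdeal ∧ Ideal.absNorm v.asIdeal ≡ 1 [MOD p] ∧
    ¬ p ∣ points a b v + 1

/-- `χ` is a character of `K` of `p`-power order and of conductor `∏_{v ∈ T} v`, as a function on `𝓞` (`K` has class
number one): a primitive character modulo the product of the `v ∈ T`, trivial on the units, and zero on the `x` which
are not prime to the conductor. -/
structure IsCharacter (p : ℕ) (T : Finset (HeightOneSpectrum (𝓞 K))) (χ : 𝓞 K → ℂ) : Prop where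
  one : χ 1 = 1
  mul : ∀ x y, χ (x * y) = χ x * χ y
  zero : ∀ x, χ x = 0 ↔ ∃ v ∈ T, x ∈ v.asIdeal
  periodic : ∀ x y, (∀ v ∈ T, x - y ∈ v.asIdeal) → χ x = χ y
  units : ∀ u, IsUnit u → χ u = 1
  primitive : ∀ v ∈ T, ∃ x, (∀ v' ∈ T, v' ≠ v → x - 1 ∈ v'.asIdeal) ∧ χ x ≠ 0 ∧ χ x ≠ 1
  order : ∃ k : ℕ, ∀ x, χ x ≠ 0 → χ x ^ p ^ k = 1

open Classical in
/-- The numbers `a_v` of `E`: `N(v) + 1 - #E(𝓞/v)` for `v ∤ 2(4a³ + 27b²)`, and the eigenvalues of `f` for the others. -/
noncomputable def coeff (a b : 𝓞 K) (c : Ideal (𝓞 K) → ℂ) (v : HeightOneSpectrum (𝓞 K)) : ℂ :=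
  if 2 * (4 * a ^ 3 + 27 * b ^ 2) ∈ v.asIdeal then c v.asIdeal
  else (Ideal.absNorm v.asIdeal : ℂ) - points a b v

/-- `χ(v)` is the value of `χ` at a generator of `v`. -/
noncomputable def at' (χ : 𝓞 K → ℂ) (v : HeightOneSpectrum (𝓞 K)) [IsPrincipalIdealRing (𝓞 K)] : ℂ :=
  χ (Submodule.IsPrincipal.generator v.asIdeal)

variable [IsPrincipalIdealRing (𝓞 K)]

open Classical in
/-- The Euler factor `(1 - a_v χ(v) N(v)^(-s) + χ(v)² N(v)^(1-2s))⁻¹` of `L(E ⊗ χ, s)` at `v`, without the last term if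
`v` divides the level. -/
noncomputable def factor (a b n : 𝓞 K) (c : Ideal (𝓞 K) → ℂ) (χ : 𝓞 K → ℂ) (s : ℂ)
    (v : HeightOneSpectrum (𝓞 K)) : ℂ :=
  (1 - coeff a b c v * at' χ v * (Ideal.absNorm v.asIdeal : ℂ) ^ (-s) +
    (if n ∈ v.asIdeal then 0 else at' χ v ^ 2 * (Ideal.absNorm v.asIdeal : ℂ) ^ (1 - 2 * s)))⁻¹

/-- `G` is the `L`-function of `E ⊗ χ`, continued to an entire function. -/
def IsLFunction (a b n : 𝓞 K) (c : Ideal (𝓞 K) → ℂ) (χ : 𝓞 K → ℂ) (G : ℂ → ℂ) : Prop :=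
  Differentiable ℂ G ∧ ∀ s : ℂ, 2 < s.re → HasProd (factor a b n c χ s) (G s)

section extension

variable (F : Type) [Field F] [NumberField F] [Algebra K F]

/-- The places `u` of `F` above `v`. -/
def Above (v : HeightOneSpectrum (𝓞 K)) : Type :=
  {u : HeightOneSpectrum (𝓞 F) // u.asIdeal.comap (algebraMap (𝓞 K) (𝓞 F)) = v.asIdeal}

omit [IsPrincipalIdealRing (𝓞 K)] in
/-- `F/K` is a finite Galois extension of `p`-power degree, unramified outside of the admissible places of `K`, and the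
places `v ∣ 2p(4a³ + 27b²)` split completely in `F` (there is an embedding of `F` in `K_v`). -/
structure IsPExtension (p : ℕ) (a b : 𝓞 K) : Prop where
  galois : IsGalois K F
  degree : ∃ k : ℕ, Module.finrank K F = p ^ k
  split : ∀ v : HeightOneSpectrum (𝓞 K), 2 * p * (4 * a ^ 3 + 27 * b ^ 2) ∈ v.asIdeal →
    Nonempty (F →ₐ[K] v.adicCompletion K)
  unramified : ∀ v : HeightOneSpectrum (𝓞 K), 2 * p * (4 * a ^ 3 + 27 * b ^ 2) ∉ v.asIdeal →
    ¬ Admissible p a b v → ∀ u : Above F v, ∀ x : K,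
      u.1.valuation F (algebraMap K F x) = v.valuation K x

omit [IsPrincipalIdealRing (𝓞 K)] in
open Classical in
/-- The Euler factor of `L(E/F, s)` at a place `u` of `F` of norm `Q = N(v)^f` above `v`, unramified over `v` or with good
reduction: with `(1 - α N(v)^(-s)) (1 - β N(v)^(-s))` the polynomial of `E` at `v` it is `((1 - α^f Q^(-s)) (1 - β^f Q^(-s)))⁻¹`, as the
Frobenius element of `u` is the power `f` of that of `v`. -/
noncomputable def factorAbove (a b n : 𝓞 K) (c : Ideal (𝓞 K) → ℂ) (v : HeightOneSpectrum (𝓞 K))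
    (Q : ℕ) (s : ℂ) : ℂ :=
  if n ∈ v.asIdeal then (1 - coeff a b c v ^ (Nat.log (Ideal.absNorm v.asIdeal) Q) *
    (Q : ℂ) ^ (-s))⁻¹
  else (1 - lucas (coeff a b c v) (Ideal.absNorm v.asIdeal)
    (Nat.log (Ideal.absNorm v.asIdeal) Q) * (Q : ℂ) ^ (-s) + (Q : ℂ) ^ (1 - 2 * s))⁻¹

omit [IsPrincipalIdealRing (𝓞 K)] in
/-- `G` is `L(E/F, s)`, continued to an entire function: for `Re s > 2` it is the product, over the places `v` of `K`, of the
products of the Euler factors of `E/F` at the places above `v`. -/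
def IsLFunctionOver (a b n : 𝓞 K) (c : Ideal (𝓞 K) → ℂ) (G : ℂ → ℂ) : Prop :=
  Differentiable ℂ G ∧ ∀ s : ℂ, 2 < s.re →
    HasProd (fun v : HeightOneSpectrum (𝓞 K) =>
      ∏ᶠ u : Above F v, factorAbove a b n c v (Ideal.absNorm u.1.asIdeal) s) (G s)

end extension

section group

variable {𝒢 : Type} [CommGroup 𝒢]

omit [IsPrincipalIdealRing (𝓞 K)] in
/-- `𝒢` is a group of characters `χ_g` of `K` of exponent `p^e`, of conductors `∏_{v ∈ T_g} v` which are products of
different places, admissible for all the curves `E_i : y² = x³ + a_i x + b_i`: the product `χ_g χ_h` is the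
primitive character `χ_(gh)`. -/
structure IsCharacterGroup (p : ℕ) {m : ℕ} (a b : Fin m → 𝓞 K) (e : ℕ)
    (T : 𝒢 → Finset (HeightOneSpectrum (𝓞 K))) (χ : 𝒢 → 𝓞 K → ℂ) : Prop where
  character : ∀ g, IsCharacter p (T g) (χ g)
  admissible : ∀ g, ∀ v ∈ T g, ∀ i, Admissible p (a i) (b i) v
  injective : Function.Injective χ
  product : ∀ g h x, χ g x ≠ 0 → χ h x ≠ 0 → χ (g * h) x = χ g x * χ h x
  exponent : ∀ g : 𝒢, g ^ p ^ e = 1

/-- `F` is the class field of the finite group `𝓕` of characters `χ_g`: the order of `𝓕` is the degree of `F`, and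
the decomposition law holds: if `f_v` is the number of the different values `χ_g(v) ≠ 0`, `g ∈ 𝓕`, then the places of
`F` above `v` have norm `N(v)^(f_v)`, and their number is `1/f_v` times the number of the characters `χ_g`, `g ∈ 𝓕`,
unramified at `v`. -/
structure IsClassField (F : Type) [Field F] [NumberField F] [Algebra K F] (χ : 𝒢 → 𝓞 K → ℂ)
    (𝓕 : Subgroup 𝒢) : Prop where
  order : Nat.card 𝓕 = Module.finrank K F
  norm : ∀ (v : HeightOneSpectrum (𝓞 K)) (u : Above F v),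
    Ideal.absNorm u.1.asIdeal =
      Ideal.absNorm v.asIdeal ^ Nat.card {z : ℂ // z ≠ 0 ∧ ∃ g ∈ 𝓕, at' (χ g) v = z}
  number : ∀ v : HeightOneSpectrum (𝓞 K),
    Nat.card (Above F v) * Nat.card {z : ℂ // z ≠ 0 ∧ ∃ g ∈ 𝓕, at' (χ g) v = z} =
      Nat.card {g : 𝒢 // g ∈ 𝓕 ∧ at' (χ g) v ≠ 0}

end group

/-- `H⁰(F, V_p W) = 0`: the elements of `V_p W` that are fixed by the Galois group are zero. -/
def NoInvariants (p : ℕ) {F : Type} [Field F] (W : WeierstrassCurve F) : Prop :=
  ∀ x : PSeq W, IsV p W x → (∀ (σ : Gal F) (n : ℕ), act W σ.toAlgHom (x n) = x n) → ∀ n, x n = 0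

/-- The algebraic side is zero: `E(F)` is finite of order prime to `p`, `Ш(E/F)` has no elements of `p`-power order, and
`H⁰(F, V_p E)` and `H¹_f(F, V_p E)` are zero. -/
def SelmerZero (p : ℕ) (F : Type) [Field F] [NumberField F] [Algebra K F] (a b : 𝓞 K) : Prop :=
  Finite (curve F a b).toAffine.Point ∧ ¬ p ∣ Nat.card (curve F a b).toAffine.Point ∧
    (∀ (k : ℕ) (x : Pool.Agent.TH841.NF.D.Sha (curve F a b)), (p ^ k : ℕ) • x = 0 → x = 0) ∧
    NoInvariants p (curve F a b) ∧ ∀ x : H1f p (curve F a b), x = 0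

/-- The order of vanishing formula for `h¹(E_F)(1)` over `F` and `p`, with both sides zero: `L(E/F, s)` extends to
an entire function which is not zero at `s = 1`, and `H⁰(F, V_p E)` and `H¹_f(F, V_p E)` are zero. -/
def Formula (p : ℕ) (F : Type) [Field F] [NumberField F] [Algebra K F] (a b n : 𝓞 K)
    (c : Ideal (𝓞 K) → ℂ) : Prop :=
  (∃ G : ℂ → ℂ, IsLFunctionOver F a b n c G ∧ G 1 ≠ 0) ∧
    NoInvariants p (curve F a b) ∧ ∀ x : H1f p (curve F a b), x = 0

/-- For all `g ∈ ℋ` the function `L(E ⊗ χ_g, s)` is entire and not zero at `s = 1`; and for all the number fields `F` which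
are the class field of a finite subgroup of `ℋ`, and in which the places `v ∣ 2p(4a³ + 27b²)` split completely, the
order of vanishing formula holds for `h¹(E_F)(1)` and `p`. -/
def RankZero (p : ℕ) {𝒢 : Type} [CommGroup 𝒢] (a b n : 𝓞 K) (c : Ideal (𝓞 K) → ℂ)
    (χ : 𝒢 → 𝓞 K → ℂ) (ℋ : Subgroup 𝒢) : Prop :=
  (∀ g ∈ ℋ, ∃ G : ℂ → ℂ, IsLFunction a b n c (χ g) G ∧ G 1 ≠ 0) ∧
  ∀ (F : Type) [Field F] [NumberField F] [Algebra K F] (𝓕 : Subgroup 𝒢), 𝓕 ≤ ℋ → Finite 𝓕 →
    IsPExtension F p a b → IsClassField F χ 𝓕 → Formula p F a b n c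

/-- The group `Λ` generated by the values of the primitive `Φ` at the cusps `x/m`, `m ≠ 0` prime to the level (that is,
by the limits of `Φ(x/m, t)` for `t → 0`). -/
def Lam (σ : K →+* ℂ) (δ : K) (n : 𝓞 K) (c : Ideal (𝓞 K) → ℂ) : AddSubgroup ℂ :=
  AddSubgroup.closure {z | ∃ x m : 𝓞 K, m ≠ 0 ∧ IsCoprime m n ∧
    Tendsto (fun t => primitive σ δ c (σ x / σ m) t) (𝓝[>] 0) (𝓝 z)}

/-- The value `Φ(0)` of the primitive at the cusp `0`, to which `L(E/K, 1)` is proportional, is prime to `p`: the group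
`Λ` is cyclic and `Φ(0)` is not in `p Λ`. -/
def UnitValue (p : ℕ) (σ : K →+* ℂ) (δ : K) (n : 𝓞 K) (c : Ideal (𝓞 K) → ℂ) : Prop :=
  (∃ ω ∈ Lam σ δ n c, ∀ l ∈ Lam σ δ n c, ∃ j : ℤ, l = j * ω) ∧
  ∀ l ∈ Lam σ δ n c, ¬ Tendsto (fun t => primitive σ δ c 0 t) (𝓝[>] 0) (𝓝 (p * l))

end field

/-- Let `K` be an imaginary quadratic field of class number one, `p` an odd prime, `E_i : y² = x³ + a_i x + b_i`,
`i = 1, …, m`, elliptic curves over `K` with the Bianchi newforms `f_i`, and suppose that `L(E_i/K, 1) ≠ 0` and that the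
`p`-Selmer groups of the `E_i/K` are trivial.
(1) For all the finite Galois extensions `F/K` of `p`-power degree, ramified only at admissible places, in which the
places `v ∣ 2p(4a_i³ + 27b_i²)` split completely: `E_i(F)` is finite of order prime to `p`, `Ш(E_i/F)[p^∞] = 0`, and
`H⁰(F, V_p E_i) = H¹_f(F, V_p E_i) = 0`.
(2) If the values `Φ_i(0)` are prime to `p`, every group `𝒢` of characters of `K` of exponent `p^e` whose conductors are
products of different admissible places has the property `RankZero` for all the `E_i`. -/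
theorem result (K : Type) [Field K] [NumberField K] [IsPrincipalIdealRing (𝓞 K)] (σ : K →+* ℂ)
    (δ : K) (hK : IsFieldData K σ δ) {p : ℕ} (hp : p.Prime) (hp2 : p ≠ 2) {m : ℕ}
    (a b n : Fin m → 𝓞 K)
    (hΔ : ∀ i, 4 * a i ^ 3 + 27 * b i ^ 2 ≠ 0) (c : Fin m → Ideal (𝓞 K) → ℂ)
    (hf : ∀ i, IsNewform σ δ (n i) (c i)) (hE : ∀ i, IsNewformOf (a i) (b i) (n i) (c i))
    (hL : ∀ i, ∃ G : ℂ → ℂ, IsLFunction (a i) (b i) (n i) (c i) (fun _ => 1) G ∧ G 1 ≠ 0)
    (hS : ∀ i, TrivialSelmer p (a i) (b i)) :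
    (∀ i (F : Type) [Field F] [NumberField F] [Algebra K F], IsPExtension F p (a i) (b i) →
      SelmerZero p F (a i) (b i)) ∧
    ((∀ i, UnitValue p σ δ (n i) (c i)) → ∀ (e : ℕ) (𝒢 : Type) [CommGroup 𝒢]
      (T : 𝒢 → Finset (HeightOneSpectrum (𝓞 K))) (χ : 𝒢 → 𝓞 K → ℂ),
      IsCharacterGroup p a b e T χ → ∀ i, RankZero p (a i) (b i) (n i) (c i) χ ⊤) := by
  classical
  have h : K4H55.BI.IQ K σ δ := ⟨hK.quadratic, hK.imaginary, inferInstance, hK.different⟩
  have hf' : ∀ i, K4H55.BI.BF σ δ (n i) (c i) := fun i => ⟨(hf i).level, (hf i).zero, (hf i).one,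
    (hf i).bound, (hf i).good, (hf i).bad, (hf i).invariant, (hf i).fricke⟩
  have hcoeff : ∀ i, ∀ v : HeightOneSpectrum (𝓞 K),
      coeff (a i) (b i) (c i) v = c i v.asIdeal := by
    intro i v
    unfold coeff
    split_ifs with h1
    · rfl
    · exact (hE i v h1).2.symm
  have hluc : ∀ (t q : ℂ) (j : ℕ), lucas t q j = K4H55.CX.luc t q j := by
    intro t q j
    induction j using Nat.twoStepInduction with
    | zero => rfl
    | one => rfl
    | more j h1 h2 => rw [lucas, K4H55.CX.luc, h1, h2]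
  have hadm : ∀ i, ∀ v, Admissible p (a i) (b i) v → H92P.Adp p (n i) (c i) v := by
    intro i v hv
    have hd : 2 * (4 * a i ^ 3 + 27 * b i ^ 2) ∉ v.asIdeal := fun h2 => hv.1 (by
      have e : 2 * p * (4 * a i ^ 3 + 27 * b i ^ 2) = 2 * (4 * a i ^ 3 + 27 * b i ^ 2) * p := by
        ring
      rw [e]
      exact v.asIdeal.mul_mem_right _ h2)
    have h2 : (2 : 𝓞 K) ∉ v.asIdeal := fun h2 => hd (v.asIdeal.mul_mem_right _ h2)
    refine ⟨h2, (hE i v hd).1, (Ideal.absNorm v.asIdeal : ℤ) - points (a i) (b i) v, ?_, ?_⟩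
    · rw [(hE i v hd).2]
      push_cast
      ring
    · intro hdvd
      apply hv.2.2
      have h3 : (p : ℤ) ∣ (Ideal.absNorm v.asIdeal : ℤ) - 1 :=
        (Nat.modEq_iff_dvd.1 hv.2.1.symm)
      have h4 : (p : ℤ) ∣ ((points (a i) (b i) v + 1 : ℕ) : ℤ) := by
        have h5 := dvd_sub h3 hdvd
        have e : (Ideal.absNorm v.asIdeal : ℤ) - 1 -
            ((Ideal.absNorm v.asIdeal : ℤ) - points (a i) (b i) v - 2) =
            ((points (a i) (b i) v + 1 : ℕ) : ℤ) := by
          push_cast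
          ring
        rwa [e] at h5
      exact_mod_cast h4
  have hfac : ∀ i, ∀ (χ : 𝓞 K → ℂ) (s : ℂ),
      factor (a i) (b i) (n i) (c i) χ s = K4H55.CX.efx (n i) (c i) χ s := by
    intro i χ s
    funext v
    unfold factor K4H55.CX.efx
    rw [hcoeff]
    rfl
  have hch : ∀ (T : Finset (HeightOneSpectrum (𝓞 K))) (χ : 𝓞 K → ℂ), IsCharacter p T χ →
      H92P.CP T χ := fun T χ h1 =>
    ⟨h1.one, h1.mul, h1.zero, h1.periodic, h1.units, h1.primitive, by
      obtain ⟨k, hk⟩ := h1.order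
      exact ⟨p ^ k, pow_pos hp.pos k, hk⟩⟩
  have hz0 : ∀ i, K4H55.BI.fv (K4H55.BI.ordK h) (fun x => c i (Ideal.span {x})) 0 ≠ 0 := by
    intro i
    obtain ⟨G, ⟨g1, g2⟩, g3⟩ := hL i
    exact H92.fv_ne h (hf' i) g1 (fun s hs => by rw [← hfac]; exact g2 s hs) g3
  -- the algebraic side
  have halg : ∀ i (F : Type) [Field F] [NumberField F] [Algebra K F],
      IsPExtension F p (a i) (b i) → SelmerZero p F (a i) (b i) := by
    intro i F _ _ _ hF
    have hG := hF.galois
    obtain ⟨k, hk⟩ := hF.degree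
    obtain ⟨h1, h2, h3⟩ := H92P.fin_upP (k := K) (K := F) hp hp2 hk (hΔ i) (hS i).1 (hS i).2.1
      (hS i).2.2 hF.split (fun w hw => by
        by_cases h4 : Admissible p (a i) (b i) (w.under (𝓞 K))
        · exact Or.inl h4.2.2
        · exact Or.inr fun x => hF.unramified _ hw h4 ⟨w, rfl⟩ x)
    exact ⟨h1.1, h1.2, h2, fun x hx hfix => Pool.Agent.R390.noinv h1.1 x hx hfix, h3⟩
  -- the property of the subgroups
  have hRZ : ∀ (e : ℕ) (𝒢 : Type) [CommGroup 𝒢] (T : 𝒢 → Finset (HeightOneSpectrum (𝓞 K)))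
      (χ : 𝒢 → 𝓞 K → ℂ), IsCharacterGroup p a b e T χ → ∀ ℋ : Subgroup 𝒢,
      (∀ x ∈ ℋ, ∀ i, ∃ G : ℂ → ℂ, Differentiable ℂ G ∧
        (∀ s : ℂ, 2 < s.re → HasProd (K4H55.CX.efx (n i) (c i) (χ x) s) (G s)) ∧ G 1 ≠ 0) →
      ∀ i, RankZero p (a i) (b i) (n i) (c i) χ ℋ := by
    intro e 𝒢 _ T χ hχ ℋ hℋ i
    have hCG : H92P.CGp T χ := ⟨fun g => hch _ _ (hχ.character g), hχ.product⟩
    refine ⟨fun g hg => ?_, fun F _ _ _ 𝓕 h𝓕 hfin hF hcf => ?_⟩
    · obtain ⟨G, g1, g2, g3⟩ := hℋ g hg i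
      exact ⟨G, ⟨g1, fun s hs => by rw [hfac]; exact g2 s hs⟩, g3⟩
    · obtain ⟨-, -, -, h2, h3⟩ := halg i F hF
      refine ⟨?_, h2, h3⟩
      -- the L-function
      have : Fintype 𝓕 := Fintype.ofFinite 𝓕
      choose G g1 g2 g3 using fun g : 𝓕 => hℋ g (h𝓕 g.2) i
      have hCF : H92P.CFp (fun g : 𝓕 => T g) (fun g : 𝓕 => χ g) :=
        ⟨fun g => hCG.ch g, fun g g' x h4 h5 => hCG.mul g g' x h4 h5⟩
      have hord : ∀ v : HeightOneSpectrum (𝓞 K),
          Nat.card {z : ℂ // z ≠ 0 ∧ ∃ g ∈ 𝓕, at' (χ g) v = z} =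
            K4H55.CX.ord (fun g : 𝓕 => χ g) (K4H55.BI.gen v) := by
        intro v
        unfold K4H55.CX.ord
        refine Nat.card_congr (Equiv.subtypeEquivRight fun z => ?_)
        constructor
        · rintro ⟨h4, g, hg, h5⟩
          exact ⟨h4, ⟨g, hg⟩, h5⟩
        · rintro ⟨h4, g, h5⟩
          exact ⟨h4, g, g.2, h5⟩
      have hnum : ∀ v : HeightOneSpectrum (𝓞 K),
          Nat.card {g : 𝒢 // g ∈ 𝓕 ∧ at' (χ g) v ≠ 0} =
            Nat.card {g : 𝓕 // χ g (K4H55.BI.gen v) ≠ 0} := by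
        intro v
        refine Nat.card_congr ⟨fun g => ⟨⟨g.1, g.2.1⟩, g.2.2⟩, fun g => ⟨g.1.1, g.1.2, g.2⟩,
          fun g => rfl, fun g => rfl⟩
      have hlaw : K4H55.CX.Law F (fun g : 𝓕 => χ g) := by
        refine ⟨fun v u hu => ?_, fun v => ?_⟩
        · rw [← hord]
          exact hcf.norm v ⟨u, hu⟩
        · rw [← hord, ← hnum]
          exact hcf.number v
      refine ⟨fun s => ∏ g, G g s, ⟨Differentiable.fun_finsetProd fun g _ => g1 g,
        fun s hs => ?_⟩, Finset.prod_ne_zero_iff.2 fun g _ => g3 g⟩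
      have e1 : ∀ (v : HeightOneSpectrum (𝓞 K)) (Q : ℕ),
          factorAbove (a i) (b i) (n i) (c i) v Q s = K4H55.CX.facF (n i) (c i) v Q s := by
        intro v Q
        unfold factorAbove K4H55.CX.facF
        rw [hcoeff, hluc]
      have e2 : (fun v : HeightOneSpectrum (𝓞 K) =>
          ∏ᶠ u : Above F v, factorAbove (a i) (b i) (n i) (c i) v (Ideal.absNorm u.1.asIdeal) s) =
          fun v => ∏ g : 𝓕, K4H55.CX.efx (n i) (c i) (χ g) s v := by
        funext v
        simp only [e1]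
        exact H92P.above_prod (n := n i) (c := c i) hCF hlaw v s
      rw [e2]
      exact hasProd_prod fun g _ => g2 g s hs
  refine ⟨halg, fun hU e 𝒢 _ T χ hχ => ?_⟩
  -- a unit value
  have hCG : H92P.CGp T χ := ⟨fun g => hch _ _ (hχ.character g), hχ.product⟩
  refine hRZ e 𝒢 T χ hχ ⊤ fun x _ i => ?_
  obtain ⟨⟨ω, hω', hω⟩, hu⟩ := hU i
  obtain ⟨z₀, -, hz₀⟩ := K4H55.BK.exists_z0 h (hf' i)
  have hfz : K4H55.BI.fv (K4H55.BI.ordK h) (fun x => c i (Ideal.span {x})) 0 = z₀ := by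
    have hz1 := hz₀
    rw [K4H55.BI.Fser_eq h] at hz1
    exact K4H55.BI.fv_eq hz1
  have hcg := H92P.cg_unit hp h (hf' i) hω (fun l hl h0 => hu l hl (by
    rw [← h0, hfz]
    exact hz₀)) hω' (hCG.ch x) (b := e) (fun y hy => hCG.root x (hχ.exponent x) hy)
    (fun v hv => hadm i v (hχ.admissible x v hv i))
  refine H92P.chr_nep h (hf' i) (hCG.ch x) (fun v hv => hadm i v (hχ.admissible x v hv i)) ?_
  obtain ⟨k, X, hk, hX, hkX⟩ := hcg
  intro h0
  rw [h0, mul_zero] at hkX
  have h1 : (X : ℂ) ≠ 0 := fun h2 => H92P.copp_ne hp hX (Subtype.ext h2)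
  exact mul_ne_zero h1 (hz0 i) hkX.symm

end Pool.Agent.Results.MP_ec4e4b_nt.SelmerZeroExtensions
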